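import Mathlib

set_option autoImplicit false

namespace Pool.Agent.Q269.SigmaTwo

/-- The basic bound for one chord of the hyperbola. -/
theorem chord {a N α U1 Ui Uj ti tj Di Dj : ℝ}
    (hα : 0 < α) (hαa : α ^ 2 = a) (hN : 0 < N) (hU1 : 0 < U1) (h1i : U1 ≤ Ui) (h1j : U1 ≤ Uj)
    (hij : ti < tj) (hDi : 0 < Di) (hDj : 0 < Dj)
    (ei : a * Di ^ 2 = Ui ^ 2 + N) (ej : a * Dj ^ 2 = Uj ^ 2 + N)
    (hUU : Uj - Ui = a * (tj - ti)) :
    0 < Uj * Di - Ui * Dj ∧ U1 * (Uj * Di - Ui * Dj) ≤ α * N * (tj - ti) := by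
  have hUi : 0 < Ui := lt_of_lt_of_le hU1 h1i
  have hUj : 0 < Uj := lt_of_lt_of_le hU1 h1j
  have ha : 0 < a := by rw [← hαa]; positivity
  have hV : 0 < Uj * Di + Ui * Dj := by positivity
  have hd : 0 < tj - ti := by linarith
  have key : (Uj * Di - Ui * Dj) * (Uj * Di + Ui * Dj) = N * (tj - ti) * (Ui + Uj) := by
    have h : a * ((Uj * Di - Ui * Dj) * (Uj * Di + Ui * Dj)) = a * (N * (tj - ti) * (Ui + Uj)) := by
      have h1 : a * ((Uj * Di - Ui * Dj) * (Uj * Di + Ui * Dj))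
          = Uj ^ 2 * (a * Di ^ 2) - Ui ^ 2 * (a * Dj ^ 2) := by ring
      have h2 : a * (N * (tj - ti) * (Ui + Uj)) = N * (a * (tj - ti)) * (Ui + Uj) := by ring
      rw [h1, ei, ej, h2, ← hUU]
      ring
    exact mul_left_cancel₀ ha.ne' h
  have hWpos : 0 < Uj * Di - Ui * Dj := by
    have : 0 < (Uj * Di - Ui * Dj) * (Uj * Di + Ui * Dj) := by
      rw [key]; positivity
    exact (pos_iff_pos_of_mul_pos this).2 hV
  refine ⟨hWpos, ?_⟩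
  have hai : Ui ≤ α * Di := by
    have : Ui ^ 2 ≤ (α * Di) ^ 2 := by
      rw [mul_pow, hαa, ei]; linarith
    exact le_of_sq_le_sq this (by positivity)
  have haj : Uj ≤ α * Dj := by
    have : Uj ^ 2 ≤ (α * Dj) ^ 2 := by
      rw [mul_pow, hαa, ej]; linarith
    exact le_of_sq_le_sq this (by positivity)
  have hV2 : 2 * Ui * Uj ≤ α * (Uj * Di + Ui * Dj) := by
    have h1 := mul_le_mul_of_nonneg_left hai hUj.le
    have h2 := mul_le_mul_of_nonneg_left haj hUi.le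
    linarith
  have h3 : (Uj * Di - Ui * Dj) * (2 * Ui * Uj) ≤ α * (N * (tj - ti) * (Ui + Uj)) := by
    calc (Uj * Di - Ui * Dj) * (2 * Ui * Uj)
        ≤ (Uj * Di - Ui * Dj) * (α * (Uj * Di + Ui * Dj)) :=
          mul_le_mul_of_nonneg_left hV2 hWpos.le
      _ = α * ((Uj * Di - Ui * Dj) * (Uj * Di + Ui * Dj)) := by ring
      _ = _ := by rw [key]
  have h4 : U1 * (Ui + Uj) ≤ 2 * Ui * Uj := by
    have h1 := mul_le_mul_of_nonneg_right h1i hUj.le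
    have h2 := mul_le_mul_of_nonneg_right h1j hUi.le
    linarith
  have h5 : (2 * Ui * Uj) * (U1 * (Uj * Di - Ui * Dj)) ≤ (2 * Ui * Uj) * (α * N * (tj - ti)) := by
    calc (2 * Ui * Uj) * (U1 * (Uj * Di - Ui * Dj))
        = U1 * ((Uj * Di - Ui * Dj) * (2 * Ui * Uj)) := by ring
      _ ≤ U1 * (α * (N * (tj - ti) * (Ui + Uj))) := mul_le_mul_of_nonneg_left h3 hU1.le
      _ = (α * N * (tj - ti)) * (U1 * (Ui + Uj)) := by ring
      _ ≤ (α * N * (tj - ti)) * (2 * Ui * Uj) :=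
          mul_le_mul_of_nonneg_left h4 (by positivity)
      _ = _ := by ring
  exact le_of_mul_le_mul_left h5 (by positivity)

theorem triple_real {a b α t1 t2 t3 D1 D2 D3 : ℝ}
    (hα : 0 < α) (hαa : α ^ 2 = a) (hN : 0 < a * b - 16)
    (h12 : t1 < t2) (h23 : t2 < t3) (hU : 0 < a * t1 - 4)
    (hD1 : 0 < D1) (hD2 : 0 < D2) (hD3 : 0 < D3)
    (e1 : D1 ^ 2 = a * t1 ^ 2 - 8 * t1 + b) (e2 : D2 ^ 2 = a * t2 ^ 2 - 8 * t2 + b)
    (e3 : D3 ^ 2 = a * t3 ^ 2 - 8 * t3 + b) :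
    0 < (t2 - t1) * (D3 - D2) - (t3 - t2) * (D2 - D1) ∧
    8 * (a * t1 - 4) ^ 3 * ((t2 - t1) * (D3 - D2) - (t3 - t2) * (D2 - D1))
      ≤ a * α * (a * b - 16) * (t3 - t1) ^ 3 := by
  have ha : 0 < a := by rw [← hαa]; positivity
  set U1 := a * t1 - 4 with hU1
  set U2 := a * t2 - 4 with hU2
  set U3 := a * t3 - 4 with hU3
  set N := a * b - 16 with hNdef
  have hU12 : U2 - U1 = a * (t2 - t1) := by rw [hU1, hU2]; ring
  have hU13 : U3 - U1 = a * (t3 - t1) := by rw [hU1, hU3]; ring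
  have hU23 : U3 - U2 = a * (t3 - t2) := by rw [hU2, hU3]; ring
  have l12 : U1 ≤ U2 := by
    have := mul_pos ha (sub_pos.2 h12)
    linarith
  have l23 : U2 ≤ U3 := by
    have := mul_pos ha (sub_pos.2 h23)
    linarith
  have l13 : U1 ≤ U3 := l12.trans l23
  have E1 : a * D1 ^ 2 = U1 ^ 2 + N := by rw [e1, hU1, hNdef]; ring
  have E2 : a * D2 ^ 2 = U2 ^ 2 + N := by rw [e2, hU2, hNdef]; ring
  have E3 : a * D3 ^ 2 = U3 ^ 2 + N := by rw [e3, hU3, hNdef]; ring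
  obtain ⟨w12, W12⟩ := chord hα hαa hN hU le_rfl l12 h12 hD1 hD2 E1 E2 hU12
  obtain ⟨w13, W13⟩ := chord hα hαa hN hU le_rfl l13 (h12.trans h23) hD1 hD3 E1 E3 hU13
  obtain ⟨w23, W23⟩ := chord hα hαa hN hU l12 l13 h23 hD2 hD3 E2 E3 hU23
  set Δ := (t2 - t1) * (D3 - D2) - (t3 - t2) * (D2 - D1) with hΔ
  have d12 : 0 < t2 - t1 := by linarith
  have d23 : 0 < t3 - t2 := by linarith
  have d13 : 0 < t3 - t1 := by linarith
  have f32 : (D3 - D2) * (D3 + D2) = (t3 - t2) * (U3 + U2) := by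
    have : (D3 - D2) * (D3 + D2) = D3 ^ 2 - D2 ^ 2 := by ring
    rw [this, e3, e2, hU3, hU2]; ring
  have f21 : (D2 - D1) * (D2 + D1) = (t2 - t1) * (U2 + U1) := by
    have : (D2 - D1) * (D2 + D1) = D2 ^ 2 - D1 ^ 2 := by ring
    rw [this, e2, e1, hU2, hU1]; ring
  have key : Δ * ((D2 + D3) * (D1 + D2)) = (t2 - t1) * (t3 - t2) *
      ((U2 * D1 - U1 * D2) + (U3 * D1 - U1 * D3) + (U3 * D2 - U2 * D3)) := by
    have h1 : Δ * ((D2 + D3) * (D1 + D2)) = (t2 - t1) * ((D3 - D2) * (D3 + D2)) * (D1 + D2)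
        - (t3 - t2) * ((D2 - D1) * (D2 + D1)) * (D2 + D3) := by rw [hΔ]; ring
    rw [h1, f32, f21]; ring
  have hDD : 0 < (D2 + D3) * (D1 + D2) := by positivity
  have hWsum : 0 < (U2 * D1 - U1 * D2) + (U3 * D1 - U1 * D3) + (U3 * D2 - U2 * D3) := by linarith
  have hΔpos : 0 < Δ := by
    have : 0 < Δ * ((D2 + D3) * (D1 + D2)) := by rw [key]; positivity
    exact (pos_iff_pos_of_mul_pos this).2 hDD
  refine ⟨hΔpos, ?_⟩
  have g21 : D1 ≤ D2 := by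
    have hU2p : 0 < U2 := lt_of_lt_of_le hU l12
    have : 0 < (D2 - D1) * (D2 + D1) := by rw [f21]; positivity
    have h := (pos_iff_pos_of_mul_pos this).2 (by positivity)
    linarith
  have g32 : D2 ≤ D3 := by
    have hU2p : 0 < U2 := lt_of_lt_of_le hU l12
    have hU3p : 0 < U3 := lt_of_lt_of_le hU2p l23
    have : 0 < (D3 - D2) * (D3 + D2) := by rw [f32]; positivity
    have h := (pos_iff_pos_of_mul_pos this).2 (by positivity)
    linarith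
  have hDD4 : 4 * U1 ^ 2 ≤ a * ((D2 + D3) * (D1 + D2)) := by
    have h1 : 4 * D1 ^ 2 ≤ (D2 + D3) * (D1 + D2) := by
      calc 4 * D1 ^ 2 = (2 * D1) * (2 * D1) := by ring
        _ ≤ (D2 + D3) * (D1 + D2) :=
          mul_le_mul (by linarith) (by linarith) (by linarith) (by linarith)
    have h2 : a * (4 * D1 ^ 2) ≤ a * ((D2 + D3) * (D1 + D2)) := mul_le_mul_of_nonneg_left h1 ha.le
    have h3 : a * (4 * D1 ^ 2) = 4 * U1 ^ 2 + 4 * N := by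
      calc a * (4 * D1 ^ 2) = 4 * (a * D1 ^ 2) := by ring
        _ = _ := by rw [E1]; ring
    linarith
  have hsum : U1 * ((U2 * D1 - U1 * D2) + (U3 * D1 - U1 * D3) + (U3 * D2 - U2 * D3))
      ≤ 2 * (α * N * (t3 - t1)) := by
    calc U1 * ((U2 * D1 - U1 * D2) + (U3 * D1 - U1 * D3) + (U3 * D2 - U2 * D3))
        = U1 * (U2 * D1 - U1 * D2) + U1 * (U3 * D1 - U1 * D3) + U1 * (U3 * D2 - U2 * D3) := by ring
      _ ≤ α * N * (t2 - t1) + α * N * (t3 - t1) + α * N * (t3 - t2) := by linarith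
      _ = _ := by ring
  have hamgm : 4 * ((t2 - t1) * (t3 - t2)) ≤ (t3 - t1) ^ 2 := by
    have h := sq_nonneg ((t2 - t1) - (t3 - t2))
    have h' : (t3 - t1) ^ 2 - 4 * ((t2 - t1) * (t3 - t2)) = ((t2 - t1) - (t3 - t2)) ^ 2 := by ring
    linarith
  calc 8 * U1 ^ 3 * Δ = 2 * U1 * Δ * (4 * U1 ^ 2) := by ring
    _ ≤ 2 * U1 * Δ * (a * ((D2 + D3) * (D1 + D2))) :=
        mul_le_mul_of_nonneg_left hDD4 (by positivity)
    _ = 2 * a * U1 * (Δ * ((D2 + D3) * (D1 + D2))) := by ring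
    _ = 2 * a * ((t2 - t1) * (t3 - t2)) * (U1 * ((U2 * D1 - U1 * D2) + (U3 * D1 - U1 * D3)
          + (U3 * D2 - U2 * D3))) := by rw [key]; ring
    _ ≤ 2 * a * ((t2 - t1) * (t3 - t2)) * (2 * (α * N * (t3 - t1))) :=
        mul_le_mul_of_nonneg_left hsum (by positivity)
    _ = (a * (α * N * (t3 - t1))) * (4 * ((t2 - t1) * (t3 - t2))) := by ring
    _ ≤ (a * (α * N * (t3 - t1))) * (t3 - t1) ^ 2 :=
        mul_le_mul_of_nonneg_left hamgm (by positivity)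
    _ = a * α * N * (t3 - t1) ^ 3 := by ring

/-- The equation for multiplicities `i`, `j`, `m` of the values `x`, `y`, `1`. -/
def E (i j x y m : ℕ) : Prop :=
  2 * x ^ i * y ^ j + m + i * x ^ 2 + j * y ^ 2 = (m + i * x + j * y) ^ 2

theorem sq_le_pow (i z : ℕ) (hi : 1 ≤ i) (hz : 2 ≤ z) : i ^ 2 * z ≤ 4 * z ^ i := by
  by_cases h3 : 3 ≤ i
  · induction i, h3 using Nat.le_induction with
    | base =>
      have h : 9 ≤ 4 * (z * z) := by nlinarith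
      calc 3 ^ 2 * z = 9 * z := by ring
        _ ≤ 4 * (z * z) * z := Nat.mul_le_mul_right _ h
        _ = 4 * z ^ 3 := by ring
    | succ k hk ih =>
      have ih' := ih (by omega)
      have h1 : (k + 1) ^ 2 ≤ 2 * k ^ 2 := by nlinarith
      calc (k + 1) ^ 2 * z ≤ 2 * k ^ 2 * z := Nat.mul_le_mul_right _ h1
        _ = 2 * (k ^ 2 * z) := by ring
        _ ≤ 2 * (4 * z ^ k) := Nat.mul_le_mul_left _ ih'
        _ ≤ z * (4 * z ^ k) := Nat.mul_le_mul_right _ hz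
        _ = 4 * z ^ (k + 1) := by ring
  · have h2 : i = 1 ∨ i = 2 := by omega
    rcases h2 with rfl | rfl
    · simp; omega
    · calc 2 ^ 2 * z = 4 * (z * 1) := by ring
        _ ≤ 4 * (z * z) := by gcongr; omega
        _ = 4 * z ^ 2 := by ring

theorem conic_of_E {i z t m : ℕ} (h : E i 2 z t m) :
    (2 * ((m : ℝ) + i * z + 2 * t) - 1) ^ 2
      = 8 * ((z : ℝ) ^ i + 1) * t ^ 2 - 8 * t + (4 * i * z * (z - 1) + 1) := by
  have h' : (2 * (z : ℝ) ^ i * t ^ 2 + m + i * z ^ 2 + 2 * t ^ 2) = (m + i * z + 2 * t) ^ 2 := by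
    have := congrArg (Nat.cast : ℕ → ℝ) h
    push_cast at this
    exact this
  linear_combination (-4 : ℝ) * h'

theorem triple {i z t1 t2 t3 m1 m2 m3 : ℕ} (hi : 1 ≤ i) (hz : 2 ≤ z) (ht : 1 ≤ t1)
    (h12 : t1 < t2) (h23 : t2 < t3) (e1 : E i 2 z t1 m1) (e2 : E i 2 z t2 m2)
    (e3 : E i 2 z t3 m3) : t1 ^ 2 ≤ z * (t3 - t1) ^ 2 := by
  have c1 := conic_of_E e1
  have c2 := conic_of_E e2
  have c3 := conic_of_E e3
  have hz' : (2 : ℝ) ≤ z := by exact_mod_cast hz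
  have hi' : (1 : ℝ) ≤ i := by exact_mod_cast hi
  have ht1 : (1 : ℝ) ≤ t1 := by exact_mod_cast ht
  have ht2 : (1 : ℝ) ≤ t2 := by exact_mod_cast (by omega : 1 ≤ t2)
  have ht3 : (1 : ℝ) ≤ t3 := by exact_mod_cast (by omega : 1 ≤ t3)
  have l12 : (t1 : ℝ) < t2 := by exact_mod_cast h12
  have l23 : (t2 : ℝ) < t3 := by exact_mod_cast h23
  have hzi : (z : ℝ) ≤ (z : ℝ) ^ i := by
    calc (z : ℝ) = z ^ 1 := by ring
      _ ≤ z ^ i := pow_le_pow_right₀ (by linarith) hi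
  set a : ℝ := 8 * ((z : ℝ) ^ i + 1) with ha
  set b : ℝ := 4 * i * z * (z - 1) + 1 with hb
  set α : ℝ := Real.sqrt a with hα
  have ha24 : 24 ≤ a := by rw [ha]; linarith
  have hαpos : 0 < α := Real.sqrt_pos.2 (by linarith)
  have hαa : α ^ 2 = a := Real.sq_sqrt (by linarith)
  have hiz : 0 ≤ (i : ℝ) * z := by positivity
  have hb1 : 1 ≤ b := by
    have : 0 ≤ 4 * ((i : ℝ) * z) * (z - 1) := mul_nonneg (by linarith) (by linarith)
    rw [hb]; linarith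
  have hab : 0 < a * b - 16 := by nlinarith
  have hbz : b ≤ 4 * i * z ^ 2 := by
    have h2 : 2 ≤ (i : ℝ) * z := by nlinarith
    have : b = 4 * i * z ^ 2 - (4 * (i * z) - 1) := by rw [hb]; ring
    rw [this]; linarith
  have hb2 : b ^ 2 ≤ 8 * a * z ^ 3 := by
    have h1 : ((i : ℝ)) ^ 2 * z ≤ 4 * z ^ i := by exact_mod_cast sq_le_pow i z hi hz
    calc b ^ 2 ≤ (4 * i * z ^ 2) ^ 2 := pow_le_pow_left₀ (by linarith) hbz 2
      _ = 16 * z ^ 3 * ((i : ℝ) ^ 2 * z) := by ring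
      _ ≤ 16 * z ^ 3 * (4 * z ^ i) := mul_le_mul_of_nonneg_left h1 (by positivity)
      _ = 8 * (8 * z ^ i) * z ^ 3 := by ring
      _ ≤ 8 * a * z ^ 3 := by
        have : 8 * (z : ℝ) ^ i ≤ a := by rw [ha]; linarith
        gcongr
  have hU : 5 / 6 * (a * t1) ≤ a * t1 - 4 := by nlinarith
  have hat : 0 < a * t1 := by positivity
  have pos : ∀ (m t : ℕ), (1 : ℝ) ≤ t → 0 < 2 * ((m : ℝ) + i * z + 2 * t) - 1 := by
    intro m t ht
    have : 0 ≤ (m : ℝ) := by positivity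
    linarith
  obtain ⟨hΔ, hle⟩ := triple_real hαpos hαa hab l12 l23 (by linarith)
    (pos m1 t1 ht1) (pos m2 t2 ht2) (pos m3 t3 ht3) c1 c2 c3
  -- integrality of the area
  set Δ : ℝ := ((t2 : ℝ) - t1) * ((2 * ((m3 : ℝ) + i * z + 2 * t3) - 1)
    - (2 * ((m2 : ℝ) + i * z + 2 * t2) - 1))
    - ((t3 : ℝ) - t2) * ((2 * ((m2 : ℝ) + i * z + 2 * t2) - 1)
    - (2 * ((m1 : ℝ) + i * z + 2 * t1) - 1)) with hΔdef
  have hΔ1 : 1 ≤ Δ := by
    have hcast : Δ = (((t2 - t1 : ℤ) * ((2 * (m3 + i * z + 2 * t3) - 1)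
      - (2 * (m2 + i * z + 2 * t2) - 1))
      - (t3 - t2 : ℤ) * ((2 * (m2 + i * z + 2 * t2) - 1)
      - (2 * (m1 + i * z + 2 * t1) - 1)) : ℤ) : ℝ) := by
      rw [hΔdef]; push_cast; ring
    rw [hcast] at hΔ ⊢
    have h0 : (0 : ℤ) < ((t2 - t1 : ℤ) * ((2 * (m3 + i * z + 2 * t3) - 1)
      - (2 * (m2 + i * z + 2 * t2) - 1))
      - (t3 - t2 : ℤ) * ((2 * (m2 + i * z + 2 * t2) - 1)
      - (2 * (m1 + i * z + 2 * t1) - 1))) := by exact_mod_cast hΔ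
    exact_mod_cast h0
  have d13 : 0 < (t3 : ℝ) - t1 := by linarith
  have s1 : 8 * (5 / 6 * (a * t1)) ^ 3 ≤ a * α * (a * b) * (t3 - t1) ^ 3 := by
    calc 8 * (5 / 6 * (a * t1)) ^ 3 ≤ 8 * (a * t1 - 4) ^ 3 := by gcongr
      _ = 8 * (a * t1 - 4) ^ 3 * 1 := by ring
      _ ≤ 8 * (a * t1 - 4) ^ 3 * Δ := by
          have : 0 ≤ a * t1 - 4 := by linarith
          gcongr
      _ ≤ a * α * (a * b - 16) * (t3 - t1) ^ 3 := hle
      _ ≤ a * α * (a * b) * (t3 - t1) ^ 3 := by gcongr; linarith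
  have s2 : 4 * (a * (t1 : ℝ) ^ 3) ≤ α * b * (t3 - t1) ^ 3 := by
    have h : a ^ 2 * (4 * (a * (t1 : ℝ) ^ 3)) ≤ a ^ 2 * (α * b * (t3 - t1) ^ 3) := by
      calc a ^ 2 * (4 * (a * (t1 : ℝ) ^ 3)) ≤ 8 * (5 / 6 * (a * t1)) ^ 3 := by
            have h0 : 0 ≤ a ^ 3 * (t1 : ℝ) ^ 3 := by positivity
            have h1 : 8 * (5 / 6 * (a * (t1 : ℝ))) ^ 3 = 125 / 27 * (a ^ 3 * (t1 : ℝ) ^ 3) := by ring
            have h2 : a ^ 2 * (4 * (a * (t1 : ℝ) ^ 3)) = 4 * (a ^ 3 * (t1 : ℝ) ^ 3) := by ring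
            rw [h1, h2]; linarith
        _ ≤ a * α * (a * b) * (t3 - t1) ^ 3 := s1
        _ = a ^ 2 * (α * b * (t3 - t1) ^ 3) := by ring
    exact le_of_mul_le_mul_left h (by positivity)
  have s3 : 16 * (a ^ 2 * (t1 : ℝ) ^ 6) ≤ a ^ 2 * (8 * (z ^ 3 * (t3 - t1) ^ 6)) := by
    calc 16 * (a ^ 2 * (t1 : ℝ) ^ 6) = (4 * (a * (t1 : ℝ) ^ 3)) ^ 2 := by ring
      _ ≤ (α * b * (t3 - t1) ^ 3) ^ 2 := pow_le_pow_left₀ (by positivity) s2 2
      _ = α ^ 2 * b ^ 2 * (t3 - t1) ^ 6 := by ring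
      _ = a * b ^ 2 * (t3 - t1) ^ 6 := by rw [hαa]
      _ ≤ a * (8 * a * z ^ 3) * (t3 - t1) ^ 6 := by gcongr
      _ = _ := by ring
  have s4 : ((t1 : ℝ) ^ 2) ^ 3 ≤ (z * (t3 - t1) ^ 2) ^ 3 := by
    have h : a ^ 2 * (8 * ((t1 : ℝ) ^ 2) ^ 3) ≤ a ^ 2 * (8 * (z * ((t3 : ℝ) - t1) ^ 2) ^ 3) := by
      have h0 : 0 ≤ a ^ 2 * (t1 : ℝ) ^ 6 := by positivity
      calc a ^ 2 * (8 * ((t1 : ℝ) ^ 2) ^ 3) = 8 * (a ^ 2 * (t1 : ℝ) ^ 6) := by ring
        _ ≤ 16 * (a ^ 2 * (t1 : ℝ) ^ 6) := by linarith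
        _ ≤ _ := s3
        _ = _ := by ring
    have h' := le_of_mul_le_mul_left h (by positivity)
    linarith
  have s5 : (t1 : ℝ) ^ 2 ≤ z * (t3 - t1) ^ 2 := le_of_pow_le_pow_left₀ (by norm_num) (by positivity) s4
  have hle13 : t1 ≤ t3 := by omega
  have s6 : ((t1 ^ 2 : ℕ) : ℝ) ≤ ((z * (t3 - t1) ^ 2 : ℕ) : ℝ) := by
    push_cast [Nat.cast_sub hle13]
    exact s5
  exact_mod_cast s6

end Pool.Agent.Q269.SigmaTwo
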