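import Mathlib
import Pool.Agent.Q269.SigmaTwo.Conic

set_option autoImplicit false

namespace Pool.Agent.Q269.SigmaTwo

theorem E_symm {i j x y m : ℕ} (h : E i j x y m) : E j i y x m := by
  unfold E at *
  calc 2 * y ^ j * x ^ i + m + j * y ^ 2 + i * x ^ 2
      = 2 * x ^ i * y ^ j + m + i * x ^ 2 + j * y ^ 2 := by ring
    _ = (m + i * x + j * y) ^ 2 := h
    _ = _ := by ring

theorem E_unique {i j x y m m' : ℕ} (hm : 1 ≤ m) (hm' : 1 ≤ m') (h : E i j x y m)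
    (h' : E i j x y m') : m = m' := by
  unfold E at h h'
  have key : ∀ a b : ℕ, 1 ≤ a → a < b →
      2 * x ^ i * y ^ j + a + i * x ^ 2 + j * y ^ 2 = (a + i * x + j * y) ^ 2 →
      2 * x ^ i * y ^ j + b + i * x ^ 2 + j * y ^ 2 = (b + i * x + j * y) ^ 2 → False := by
    intro a b ha hab ea eb
    obtain ⟨d, rfl⟩ := Nat.exists_eq_add_of_lt hab
    have h1 : (a + d + 1 + i * x + j * y) ^ 2
        = (a + i * x + j * y) ^ 2 + (d + 1) * (2 * (a + i * x + j * y) + (d + 1)) := by ring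
    have h2 : (d + 1) * 3 ≤ (d + 1) * (2 * (a + i * x + j * y) + (d + 1)) :=
      Nat.mul_le_mul_left _ (by omega)
    rw [h1, ← ea] at eb
    omega
  rcases lt_trichotomy m m' with hlt | heq | hgt
  · exact (key m m' hm hlt h h').elim
  · exact heq
  · exact (key m' m hm' hgt h' h).elim

/-- `2 (ix)² ≤ 9 x^i`. -/
theorem pow_bound1 (i x : ℕ) (hi : 2 ≤ i) (hx : 2 ≤ x) : 2 * (i * x) ^ 2 ≤ 9 * x ^ i := by
  by_cases h3 : 3 ≤ i
  · induction i, h3 using Nat.le_induction with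
    | base =>
      calc 2 * (3 * x) ^ 2 = 9 * (2 * x ^ 2) := by ring
        _ ≤ 9 * (x * x ^ 2) := by gcongr
        _ = 9 * x ^ 3 := by ring
    | succ k hk ih =>
      have ih' := ih (by omega)
      have h1 : (k + 1) ^ 2 ≤ 2 * k ^ 2 := by nlinarith
      calc 2 * ((k + 1) * x) ^ 2 = 2 * x ^ 2 * (k + 1) ^ 2 := by ring
        _ ≤ 2 * x ^ 2 * (2 * k ^ 2) := Nat.mul_le_mul_left _ h1
        _ = 2 * (2 * (k * x) ^ 2) := by ring
        _ ≤ 2 * (9 * x ^ k) := Nat.mul_le_mul_left _ ih'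
        _ ≤ x * (9 * x ^ k) := Nat.mul_le_mul_right _ hx
        _ = 9 * x ^ (k + 1) := by ring
  · have h2 : i = 2 := by omega
    subst h2
    calc 2 * (2 * x) ^ 2 = 8 * x ^ 2 := by ring
      _ ≤ 9 * x ^ 2 := by omega

theorem pow_bound2 (i x : ℕ) (hi : 3 ≤ i) (hx : 10 ≤ x) : 4 * (i * x + 1) ^ 2 ≤ 5 * x ^ i := by
  induction i, hi using Nat.le_induction with
  | base =>
    have h1 : 4 * (3 * x + 1) ^ 2 ≤ 5 * (10 * x ^ 2) := by nlinarith
    calc 4 * (3 * x + 1) ^ 2 ≤ 5 * (10 * x ^ 2) := h1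
      _ ≤ 5 * (x * x ^ 2) := by gcongr
      _ = 5 * x ^ 3 := by ring
  | succ k hk ih =>
    have h0 : x ≤ k * x := by nlinarith
    have h1 : ((k + 1) * x + 1) ^ 2 ≤ 4 * (k * x + 1) ^ 2 := by
      have : (k + 1) * x + 1 ≤ 2 * (k * x + 1) := by
        have : (k + 1) * x = k * x + x := by ring
        omega
      calc ((k + 1) * x + 1) ^ 2 ≤ (2 * (k * x + 1)) ^ 2 := Nat.pow_le_pow_left this 2
        _ = _ := by ring
    calc 4 * ((k + 1) * x + 1) ^ 2 ≤ 4 * (4 * (k * x + 1) ^ 2) := Nat.mul_le_mul_left _ h1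
      _ ≤ 4 * (5 * x ^ k) := Nat.mul_le_mul_left _ ih
      _ ≤ x * (5 * x ^ k) := Nat.mul_le_mul_right _ (by omega)
      _ = 5 * x ^ (k + 1) := by ring

theorem absorb {P m S : ℕ} (h : 2 * P ≤ (m + S) ^ 2) (h2 : 4 * S ^ 2 ≤ 5 * P) : P ≤ 12 * m ^ 2 := by
  zify at *
  nlinarith [sq_nonneg (5 * (m : ℤ) - S)]

theorem two_P_le {i j x y m : ℕ} (h : E i j x y m) :
    2 * (x ^ i * y ^ j) ≤ (m + (i * x + j * y)) ^ 2 := by
  unfold E at h
  have h1 : (m + (i * x + j * y)) ^ 2 = (m + i * x + j * y) ^ 2 := by ring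
  rw [h1, ← h]
  have h2 : 2 * (x ^ i * y ^ j) = 2 * x ^ i * y ^ j := by ring
  rw [h2]
  have : 0 ≤ i * x ^ 2 := Nat.zero_le _
  have : 0 ≤ j * y ^ 2 := Nat.zero_le _
  omega

theorem P_bound_C {i j x y m : ℕ} (h : E i j x y m) (hi : 2 ≤ i) (hj : 2 ≤ j) (hx : 2 ≤ x)
    (hy : 2 ≤ y) : x ^ i * y ^ j < 8100 ∨ x ^ i * y ^ j ≤ 12 * m ^ 2 := by
  rcases Nat.lt_or_ge (x ^ i * y ^ j) 8100 with hP | hP
  · exact Or.inl hP
  · right
    refine absorb (two_P_le h) ?_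
    have u1 := pow_bound1 i x hi hx
    have v1 := pow_bound1 j y hj hy
    have hU : 4 ≤ x ^ i := by
      calc 4 = 2 ^ 2 := by norm_num
        _ ≤ x ^ 2 := Nat.pow_le_pow_left hx 2
        _ ≤ x ^ i := Nat.pow_le_pow_right (by omega) hi
    have hV : 4 ≤ y ^ j := by
      calc 4 = 2 ^ 2 := by norm_num
        _ ≤ y ^ 2 := Nat.pow_le_pow_left hy 2
        _ ≤ y ^ j := Nat.pow_le_pow_right (by omega) hj
    set U := x ^ i with hUd
    set V := y ^ j with hVd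
    set p := i * x with hp
    set q := j * y with hq
    have hUV : 4 * (U + V) ≤ U * V + 16 := by
      obtain ⟨u, hu⟩ := Nat.exists_eq_add_of_le hU
      obtain ⟨v, hv⟩ := Nat.exists_eq_add_of_le hV
      rw [hu, hv]
      have : (4 + u) * (4 + v) + 16 = 4 * (4 + u + (4 + v)) + u * v := by ring
      rw [this]; exact Nat.le_add_right _ _
    have h1 : 4 * (p * q) ^ 2 ≤ 81 * (U * V) := by
      calc 4 * (p * q) ^ 2 = (2 * p ^ 2) * (2 * q ^ 2) := by ring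
        _ ≤ (9 * U) * (9 * V) := Nat.mul_le_mul u1 v1
        _ = 81 * (U * V) := by ring
    have h2 : 20 * (p * q) ≤ U * V := by
      have : (20 * (p * q)) ^ 2 ≤ (U * V) ^ 2 := by
        calc (20 * (p * q)) ^ 2 = 100 * (4 * (p * q) ^ 2) := by ring
          _ ≤ 100 * (81 * (U * V)) := Nat.mul_le_mul_left _ h1
          _ = 8100 * (U * V) := by ring
          _ ≤ (U * V) * (U * V) := Nat.mul_le_mul_right _ hP
          _ = _ := by ring
      exact (Nat.pow_le_pow_iff_left (by norm_num)).1 this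
    have h3 : 4 * (p + q) ^ 2 = 2 * (2 * p ^ 2) + 2 * (2 * q ^ 2) + 8 * (p * q) := by ring
    rw [h3]
    omega

/-- the case of a single large multiplicity -/
theorem x_bound_AB {i x m : ℕ} (hi : 3 ≤ i) (h : 2 * x ^ i ≤ (m + (i * x + 1)) ^ 2) :
    x < 10 ∨ x ^ i ≤ 12 * m ^ 2 := by
  rcases Nat.lt_or_ge x 10 with hx | hx
  · exact Or.inl hx
  · exact Or.inr (absorb h (pow_bound2 i x hi hx))

def T1 (r n : ℕ) : Prop := ∃ i j x y m, i < 48 * r + 2 ∧ j < 48 * r + 2 ∧ 1 ≤ x ∧ 1 ≤ y ∧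
  x * y ≤ 2 ^ (22 * r + 2) ∧ 1 ≤ m ∧ E i j x y m ∧ n = m + i + j

def G (i x : ℕ) : ℕ := x ^ (2 * i) + i * x - x ^ i - i * x ^ 2

def T2 (r n : ℕ) : Prop := ∃ i x g, i < 48 * r + 2 ∧ x ≤ 2 ^ (18 * r) ∧ G i x ≠ 0 ∧
  G i x ≤ 2 ^ (400 * r) ∧ g ∣ G i x ∧ n + i * x + g = x ^ i + i + 1

def T3 (r n : ℕ) : Prop := ∃ i z t m, 1 ≤ i ∧ i < 48 * r + 2 ∧ 2 ≤ z ∧ z ≤ 2 ^ (12 * r + 3) ∧
  1 ≤ t ∧ t < 2 ^ (26 * r) ∧ 1 ≤ m ∧ E i 2 z t m ∧ n = m + i + 2

/-- the case `j = 1`: the divisor description -/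
theorem caseB {i x y m : ℕ} (hi : 2 ≤ i) (hx : 2 ≤ x) (hy : 1 ≤ y) (hm : 1 ≤ m)
    (h : E i 1 x y m) : ∃ g, 1 ≤ g ∧ g + m + i * x = x ^ i ∧ g ∣ G i x ∧ G i x ≠ 0 ∧
      2 * y * g + m + i * x ^ 2 = (m + i * x) ^ 2 := by
  unfold E at h
  have hxx : 2 * x ≤ x ^ 2 := by nlinarith
  -- `x^i > m + i x`
  have hlt : m + i * x < x ^ i := by
    by_contra hcon
    have hcon : x ^ i ≤ m + i * x := not_lt.1 hcon
    have h1 : 2 * x ^ i * y ≤ 2 * (m + i * x) * y := by gcongr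
    have h2 : (m + i * x + 1 * y) ^ 2 = (m + i * x) ^ 2 + 2 * (m + i * x) * y + y ^ 2 := by ring
    have h3 : m + i * x ^ 2 < (m + i * x) ^ 2 := by
      have e : (m + i * x) ^ 2 = m ^ 2 + 2 * (m * (i * x)) + i * (i * x ^ 2) := by ring
      have f1 : m ≤ m ^ 2 := by nlinarith
      have f2 : 1 ≤ m * (i * x) := Nat.one_le_iff_ne_zero.2 (by positivity)
      have f3 : 1 * (i * x ^ 2) ≤ i * (i * x ^ 2) := Nat.mul_le_mul_right _ (by omega)
      rw [e]; omega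
    rw [h2] at h
    have h4 : 2 * x ^ i * y ^ 1 = 2 * x ^ i * y := by ring
    rw [h4] at h
    omega
  obtain ⟨g, hg⟩ := Nat.exists_eq_add_of_lt hlt
  have hg' : (g + 1) + m + i * x = x ^ i := by omega
  have heq : 2 * y * (g + 1) + m + i * x ^ 2 = (m + i * x) ^ 2 := by
    rw [← hg'] at h
    have : 2 * (g + 1 + m + i * x) * y ^ 1 + m + i * x ^ 2 + 1 * y ^ 2
      = (2 * y * (g + 1) + m + i * x ^ 2) + (2 * (m + i * x) * y + y ^ 2) := by ring
    rw [this] at h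
    have h2 : (m + i * x + 1 * y) ^ 2 = (m + i * x) ^ 2 + (2 * (m + i * x) * y + y ^ 2) := by ring
    rw [h2] at h
    exact Nat.add_right_cancel h
  have hG : G i x = (g + 1) * (2 * y + (2 * (m + i * x) + g)) := by
    unfold G
    have e1 : x ^ (2 * i) = (g + 1 + m + i * x) ^ 2 := by
      rw [hg']; ring
    have e2 : x ^ (2 * i) + i * x = (g + 1) * (2 * y + (2 * (m + i * x) + g)) + x ^ i + i * x ^ 2 := by
      rw [e1, ← hg']
      have : (g + 1 + m + i * x) ^ 2 = (m + i * x) ^ 2 + (g + 1) * (2 * (m + i * x) + (g + 1)) := by ring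
      rw [this, ← heq]
      ring
    omega
  refine ⟨g + 1, by omega, hg', ?_, ?_, heq⟩
  · rw [hG]; exact Dvd.intro _ rfl
  · rw [hG]
    have : 0 < (g + 1) * (2 * y + (2 * (m + i * x) + g)) := by positivity
    omega

end Pool.Agent.Q269.SigmaTwo
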