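import Mathlib
import Pool.Agent.Q269.SigmaTwo.Conic

set_option autoImplicit false

namespace Pool.Agent.Q269.SigmaTwo

open Finset

open Classical in
/-- The number of solutions in a dyadic block. -/
theorem card_block {i z w s : ℕ} (hi : 1 ≤ i) (hz : 2 ≤ z) (hw : z ≤ w ^ 2) :
    ((Finset.Ico (2 ^ s) (2 ^ (s + 1))).filter (fun t => ∃ m, E i 2 z t m)).card ≤ 2 * w := by
  set T := 2 ^ s with hT
  have hTpos : 0 < T := by positivity
  have hT2 : 2 ^ (s + 1) = 2 * T := by rw [hT]; ring
  rw [hT2]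
  have hmaps : ∀ t ∈ (Finset.Ico T (2 * T)).filter (fun t => ∃ m, E i 2 z t m),
      (t - T) * w / T ∈ Finset.range w := by
    intro t ht
    rw [Finset.mem_filter, Finset.mem_Ico] at ht
    rw [Finset.mem_range]
    have hwpos : 0 < w := by
      rcases Nat.eq_zero_or_pos w with h | h
      · subst h; simp at hw; omega
      · exact h
    rw [Nat.div_lt_iff_lt_mul hTpos]
    have h1 : t - T < T := by omega
    calc (t - T) * w < T * w := Nat.mul_lt_mul_of_pos_right h1 hwpos
      _ = w * T := by ring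
  have hsub : ∀ q ∈ Finset.range w,
      (((Finset.Ico T (2 * T)).filter (fun t => ∃ m, E i 2 z t m)).filter
        (fun t => (t - T) * w / T = q)).card ≤ 2 := by
    intro q _
    by_contra hcon
    push_neg at hcon
    rw [Finset.two_lt_card] at hcon
    obtain ⟨a, ha, b, hb, c, hc, hab, hac, hbc⟩ := hcon
    have main : ∀ t1 t2 t3 : ℕ,
        t1 ∈ (((Finset.Ico T (2 * T)).filter (fun t => ∃ m, E i 2 z t m)).filter
          (fun t => (t - T) * w / T = q)) →
        t2 ∈ (((Finset.Ico T (2 * T)).filter (fun t => ∃ m, E i 2 z t m)).filter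
          (fun t => (t - T) * w / T = q)) →
        t3 ∈ (((Finset.Ico T (2 * T)).filter (fun t => ∃ m, E i 2 z t m)).filter
          (fun t => (t - T) * w / T = q)) → t1 < t2 → t2 < t3 → False := by
      intro t1 t2 t3 h1 h2 h3 l12 l23
      simp only [Finset.mem_filter, Finset.mem_Ico] at h1 h2 h3
      obtain ⟨⟨⟨g1, g1'⟩, m1, e1⟩, q1⟩ := h1
      obtain ⟨⟨⟨g2, g2'⟩, m2, e2⟩, q2⟩ := h2
      obtain ⟨⟨⟨g3, g3'⟩, m3, e3⟩, q3⟩ := h3
      have key := triple hi hz (by omega : 1 ≤ t1) l12 l23 e1 e2 e3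
      have k1 : q * T ≤ (t1 - T) * w := by rw [← q1]; exact Nat.div_mul_le_self _ _
      have k3 : (t3 - T) * w < (q + 1) * T := by
        rw [← q3]
        have := Nat.lt_div_mul_add (a := (t3 - T) * w) hTpos
        calc (t3 - T) * w < (t3 - T) * w / T * T + T := this
          _ = _ := by ring
      have k4 : (t3 - t1) * w < T := by
        have h : (t3 - T) = (t1 - T) + (t3 - t1) := by omega
        rw [h] at k3
        have h' : ((t1 - T) + (t3 - t1)) * w = (t1 - T) * w + (t3 - t1) * w := by ring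
        have h'' : (q + 1) * T = q * T + T := by ring
        rw [h', h''] at k3
        omega
      have k5 : t1 ^ 2 ≤ ((t3 - t1) * w) ^ 2 := by
        calc t1 ^ 2 ≤ z * (t3 - t1) ^ 2 := key
          _ ≤ w ^ 2 * (t3 - t1) ^ 2 := Nat.mul_le_mul_right _ hw
          _ = _ := by ring
      have k6 : t1 ≤ (t3 - t1) * w := (Nat.pow_le_pow_iff_left (by norm_num)).1 k5
      omega
    rcases lt_or_gt_of_ne hab with h1 | h1 <;> rcases lt_or_gt_of_ne hac with h2 | h2 <;>
      rcases lt_or_gt_of_ne hbc with h3 | h3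
    · exact main a b c ha hb hc h1 h3
    · exact main a c b ha hc hb h2 h3
    · omega
    · exact main c a b hc ha hb h2 h1
    · exact main b a c hb ha hc h1 h2
    · omega
    · exact main b c a hb hc ha h3 h2
    · exact main c b a hc hb ha h3 h1
  have := Finset.card_le_mul_card_image_of_maps_to hmaps 2 hsub
  simpa using this

open Classical in
theorem card_conic {i z w L : ℕ} (hi : 1 ≤ i) (hz : 2 ≤ z) (hw : z ≤ w ^ 2) :
    ((Finset.Ico 1 (2 ^ L)).filter (fun t => ∃ m, E i 2 z t m)).card ≤ L * (2 * w) := by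
  have hsub : (Finset.Ico 1 (2 ^ L)).filter (fun t => ∃ m, E i 2 z t m) ⊆
      (Finset.range L).biUnion (fun s =>
        (Finset.Ico (2 ^ s) (2 ^ (s + 1))).filter (fun t => ∃ m, E i 2 z t m)) := by
    intro t ht
    rw [Finset.mem_filter, Finset.mem_Ico] at ht
    rw [Finset.mem_biUnion]
    refine ⟨Nat.log 2 t, ?_, ?_⟩
    · rw [Finset.mem_range]
      exact Nat.log_lt_of_lt_pow (by omega) ht.1.2
    · rw [Finset.mem_filter, Finset.mem_Ico]
      exact ⟨⟨Nat.pow_log_le_self 2 (by omega), Nat.lt_pow_succ_log_self (by norm_num) t⟩, ht.2⟩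
  refine (Finset.card_le_card hsub).trans ?_
  refine (Finset.card_biUnion_le_card_mul _ _ (2 * w) (fun s _ => card_block hi hz hw)).trans ?_
  simp

end Pool.Agent.Q269.SigmaTwo
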