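import Mathlib
import Pool.Agent.Q269.SigmaTwo.Arith

set_option autoImplicit false

namespace Pool.Agent.Q269.SigmaTwo

theorem cube_le {a r : ℕ} (h : a ^ 3 ≤ 2 ^ (48 * r + 4)) : a ≤ 2 ^ (16 * r + 2) := by
  have : a ^ 3 ≤ (2 ^ (16 * r + 2)) ^ 3 := by
    calc a ^ 3 ≤ 2 ^ (48 * r + 4) := h
      _ ≤ 2 ^ ((16 * r + 2) * 3) := Nat.pow_le_pow_right (by norm_num) (by omega)
      _ = _ := by rw [pow_mul]
  exact (Nat.pow_le_pow_iff_left (by norm_num)).1 this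

theorem twelve_le {m r : ℕ} (h : m ≤ 2 ^ (24 * r)) : 12 * m ^ 2 ≤ 2 ^ (48 * r + 4) := by
  calc 12 * m ^ 2 ≤ 16 * (2 ^ (24 * r)) ^ 2 := by gcongr; norm_num
    _ = 2 ^ (48 * r + 4) := by rw [← pow_mul, pow_add]; ring_nf

theorem case_A {r n i y x m : ℕ} (hr : 1 ≤ r) (hE : E i 0 x y m) (hm : 1 ≤ m) (hn : n = m + i + 0)
    (hn6 : 6 ≤ n) (hnX : n ≤ 2 ^ (24 * r)) (hx : 2 ≤ x) (hk : i + 0 ≤ 48 * r + 1) :
    T1 r n := by
  have hi : 3 ≤ i := by
    by_contra hcon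
    have hc : i = 0 ∨ i = 1 ∨ i = 2 := by omega
    unfold E at hE
    rcases hc with rfl | rfl | rfl
    · have h2 : 2 + m = m ^ 2 := by
        have := hE
        ring_nf at this ⊢
        exact this
      have : m ≤ 2 := by
        by_contra h
        have : 3 * m ≤ m ^ 2 := by nlinarith
        omega
      omega
    · have h2 : 2 * x + m = m ^ 2 + 2 * (m * x) := by
        have e : 2 * x ^ 1 * y ^ 0 + m + 1 * x ^ 2 + 0 * y ^ 2 = (2 * x + m) + x ^ 2 := by ring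
        have e' : (m + 1 * x + 0 * y) ^ 2 = (m ^ 2 + 2 * (m * x)) + x ^ 2 := by ring
        rw [e, e'] at hE
        exact Nat.add_right_cancel hE
      have h3 : 5 * m ≤ m ^ 2 := by nlinarith
      have h4 : 5 * x ≤ m * x := by nlinarith
      omega
    · have h2 : m = m ^ 2 + 4 * (m * x) := by
        have e : 2 * x ^ 2 * y ^ 0 + m + 2 * x ^ 2 + 0 * y ^ 2 = m + 4 * x ^ 2 := by ring
        have e' : (m + 2 * x + 0 * y) ^ 2 = (m ^ 2 + 4 * (m * x)) + 4 * x ^ 2 := by ring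
        rw [e, e'] at hE
        exact Nat.add_right_cancel hE
      have h3 : m ≤ m ^ 2 := by nlinarith
      have h4 : 1 ≤ m * x := Nat.one_le_iff_ne_zero.2 (by positivity)
      omega
  have hmX : m ≤ 2 ^ (24 * r) := by omega
  have h1 : 2 * x ^ i ≤ (m + (i * x + 1)) ^ 2 := by
    have := two_P_le hE
    calc 2 * x ^ i = 2 * (x ^ i * y ^ 0) := by ring
      _ ≤ (m + (i * x + 0 * y)) ^ 2 := this
      _ ≤ (m + (i * x + 1)) ^ 2 := Nat.pow_le_pow_left (by omega) 2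
  have hxb : x ≤ 2 ^ (16 * r + 2) := by
    rcases x_bound_AB hi h1 with h | h
    · calc x ≤ 2 ^ 4 := by omega
        _ ≤ 2 ^ (16 * r + 2) := Nat.pow_le_pow_right (by norm_num) (by omega)
    · apply cube_le
      calc x ^ 3 ≤ x ^ i := Nat.pow_le_pow_right (by omega) hi
        _ ≤ 12 * m ^ 2 := h
        _ ≤ _ := twelve_le hmX
  refine ⟨i, 0, x, 1, m, by omega, by omega, by omega, le_rfl, ?_, hm, ?_, hn⟩
  · rw [mul_one]
    exact hxb.trans (Nat.pow_le_pow_right (by norm_num) (by omega))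
  · unfold E at hE ⊢
    simpa using hE

theorem case_B {r n i x y m : ℕ} (hr : 2 ≤ r) (hE : E i 1 x y m) (hm : 1 ≤ m) (hn : n = m + i + 1)
    (hi1 : 1 ≤ i) (hnX : n ≤ 2 ^ (24 * r)) (hx : 2 ≤ x) (hy : 2 ≤ y)
    (hk : i + 1 ≤ 48 * r + 1) : T2 r n ∨ T3 r n := by
  have hi : 2 ≤ i := by
    by_contra hcon
    have hc : i = 1 := by omega
    subst hc
    unfold E at hE
    have h2 : m = m ^ 2 + 2 * (m * (x + y)) := by
      have e : 2 * x ^ 1 * y ^ 1 + m + 1 * x ^ 2 + 1 * y ^ 2 = m + (x + y) ^ 2 := by ring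
      have e' : (m + 1 * x + 1 * y) ^ 2 = (m ^ 2 + 2 * (m * (x + y))) + (x + y) ^ 2 := by ring
      rw [e, e'] at hE
      exact Nat.add_right_cancel hE
    have h3 : m ≤ m ^ 2 := by nlinarith
    have h4 : 1 ≤ m * (x + y) := Nat.one_le_iff_ne_zero.2 (by positivity)
    omega
  have hmX : m ≤ 2 ^ (24 * r) := by omega
  obtain ⟨g, hg1, hg, hgG, hG0, heq⟩ := caseB hi hx (by omega) hm hE
  have hGle : G i x ≤ (x ^ i) ^ 2 := by
    unfold G
    have h1 : i * x ≤ i * x ^ 2 := Nat.mul_le_mul_left _ (by nlinarith)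
    have h2 : x ^ (2 * i) = (x ^ i) ^ 2 := by ring
    rw [h2]; omega
  by_cases hcase : i = 2 ∧ 2 ^ (18 * r) < x
  · -- conic
    obtain ⟨rfl, hxl⟩ := hcase
    right
    have h36 : 2 ^ (36 * r) ≤ x ^ 2 := by
      calc 2 ^ (36 * r) = (2 ^ (18 * r)) ^ 2 := by rw [← pow_mul]; ring_nf
        _ ≤ x ^ 2 := Nat.pow_le_pow_left hxl.le 2
    have h4m : 4 * m ≤ x ^ 2 := by
      calc 4 * m ≤ 2 ^ 2 * 2 ^ (24 * r) := Nat.mul_le_mul (by norm_num) hmX
        _ = 2 ^ (2 + 24 * r) := by rw [pow_add]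
        _ ≤ 2 ^ (36 * r) := Nat.pow_le_pow_right (by norm_num) (by omega)
        _ ≤ _ := h36
    have hx8 : 8 ≤ x := by
      calc 8 = 2 ^ 3 := by norm_num
        _ ≤ 2 ^ (18 * r) := Nat.pow_le_pow_right (by norm_num) (by omega)
        _ ≤ x := hxl.le
    have h8x : 8 * x ≤ x ^ 2 := by nlinarith
    have hg2 : x ^ 2 ≤ 2 * g := by omega
    refine ⟨1, y, x, m, le_rfl, by omega, hy, ?_, by omega, ?_, hm, E_symm hE, by omega⟩
    · by_contra hcon
      have hcon : 2 ^ (12 * r + 3) < y := not_le.1 hcon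
      have k1 : y * x ^ 2 ≤ (m + 2 * x) ^ 2 := by
        calc y * x ^ 2 ≤ y * (2 * g) := Nat.mul_le_mul_left _ hg2
          _ = 2 * y * g := by ring
          _ ≤ (m + 2 * x) ^ 2 := by omega
      have k2 : (m + 2 * x) ^ 2 ≤ 2 * m ^ 2 + 8 * x ^ 2 := by
        zify
        nlinarith [sq_nonneg ((m : ℤ) - 2 * x)]
      have k3 : m ^ 2 ≤ 2 ^ (12 * r) * x ^ 2 := by
        calc m ^ 2 ≤ (2 ^ (24 * r)) ^ 2 := Nat.pow_le_pow_left hmX 2
          _ = 2 ^ (12 * r) * 2 ^ (36 * r) := by rw [← pow_mul, ← pow_add]; ring_nf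
          _ ≤ _ := Nat.mul_le_mul_left _ h36
      have k4 : 8 ≤ 2 ^ (12 * r) := by
        calc 8 = 2 ^ 3 := by norm_num
          _ ≤ 2 ^ (12 * r) := Nat.pow_le_pow_right (by norm_num) (by omega)
      have k5 : 2 ^ (12 * r + 3) = 8 * 2 ^ (12 * r) := by rw [pow_add]; ring
      have k6 : 2 ^ (12 * r + 3) * x ^ 2 < y * x ^ 2 := Nat.mul_lt_mul_of_pos_right hcon (by positivity)
      have k7 : 8 * x ^ 2 ≤ 2 ^ (12 * r) * x ^ 2 := Nat.mul_le_mul_right _ k4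
      rw [k5, mul_assoc] at k6
      omega
    · have hlt : x < 4 * m + 8 := by
        by_contra hcon
        have hcon : 4 * m + 8 ≤ x := not_lt.1 hcon
        have a1 : 4 * g ≤ 2 * y * g := Nat.mul_le_mul_right _ (by omega)
        have a2 : (m + 2 * x) ^ 2 = m ^ 2 + 4 * (m * x) + 4 * x ^ 2 := by ring
        rw [a2] at heq
        have a3 : (4 * m + 8) * x ≤ x ^ 2 := by
          calc (4 * m + 8) * x ≤ x * x := Nat.mul_le_mul_right _ hcon
            _ = x ^ 2 := by ring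
        have a4 : (4 * m + 8) ^ 2 ≤ x ^ 2 := Nat.pow_le_pow_left hcon 2
        have a5 : (4 * m + 8) ^ 2 = 16 * m ^ 2 + 64 * m + 64 := by ring
        have a6 : (4 * m + 8) * x = 4 * (m * x) + 8 * x := by ring
        rw [a5] at a4
        rw [a6] at a3
        omega
      calc x < 4 * m + 8 := hlt
        _ ≤ 2 ^ (24 * r + 3) := by
          have h1 : 4 * m ≤ 4 * 2 ^ (24 * r) := Nat.mul_le_mul_left _ hmX
          have h2 : 2 ^ (24 * r + 3) = 8 * 2 ^ (24 * r) := by rw [pow_add]; ring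
          have h3 : 2 ≤ 2 ^ (24 * r) := by
            calc 2 = 2 ^ 1 := by norm_num
              _ ≤ 2 ^ (24 * r) := Nat.pow_le_pow_right (by norm_num) (by omega)
          omega
        _ ≤ 2 ^ (26 * r) := Nat.pow_le_pow_right (by norm_num) (by omega)
  · left
    have hcase' : (i = 2 ∧ x ≤ 2 ^ (18 * r)) ∨ 3 ≤ i := by
      by_cases h2 : i = 2
      · left; exact ⟨h2, by by_contra hh; exact hcase ⟨h2, not_le.1 hh⟩⟩
      · right; omega
    have hxb : x ≤ 2 ^ (18 * r) ∧ x ^ i ≤ 2 ^ (192 * r + 4) := by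
      rcases hcase' with ⟨rfl, hxs⟩ | hi3
      · refine ⟨hxs, ?_⟩
        calc x ^ 2 ≤ (2 ^ (18 * r)) ^ 2 := Nat.pow_le_pow_left hxs 2
          _ = 2 ^ (36 * r) := by rw [← pow_mul]; ring_nf
          _ ≤ 2 ^ (192 * r + 4) := Nat.pow_le_pow_right (by norm_num) (by omega)
      · have h1 : 2 * x ^ i ≤ (m + (i * x + 1)) ^ 2 := by
          have e : (m + (i * x + 1)) ^ 2 = (m + i * x) ^ 2 + 2 * (m + i * x) + 1 := by ring
          have e2 : 2 * g ≤ 2 * y * g := Nat.mul_le_mul_right _ (by omega)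
          rw [e]; omega
        rcases x_bound_AB hi3 h1 with h | h
        · constructor
          · calc x ≤ 2 ^ 4 := by omega
              _ ≤ 2 ^ (18 * r) := Nat.pow_le_pow_right (by norm_num) (by omega)
          · calc x ^ i ≤ (2 ^ 4) ^ i := Nat.pow_le_pow_left (by omega) i
              _ = 2 ^ (4 * i) := by rw [← pow_mul]
              _ ≤ 2 ^ (192 * r + 4) := Nat.pow_le_pow_right (by norm_num) (by omega)
        · have h2 : x ^ i ≤ 2 ^ (48 * r + 4) := h.trans (twelve_le hmX)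
          constructor
          · calc x ≤ 2 ^ (16 * r + 2) := cube_le ((Nat.pow_le_pow_right (by omega) hi3).trans h2)
              _ ≤ 2 ^ (18 * r) := Nat.pow_le_pow_right (by norm_num) (by omega)
          · exact h2.trans (Nat.pow_le_pow_right (by norm_num) (by omega))
    refine ⟨i, x, g, by omega, hxb.1, hG0, ?_, hgG, by omega⟩
    calc G i x ≤ (x ^ i) ^ 2 := hGle
      _ ≤ (2 ^ (192 * r + 4)) ^ 2 := Nat.pow_le_pow_left hxb.2 2
      _ = 2 ^ ((192 * r + 4) * 2) := by rw [← pow_mul]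
      _ ≤ 2 ^ (400 * r) := Nat.pow_le_pow_right (by norm_num) (by omega)

theorem P_le {r i j x y m : ℕ} (hr : 1 ≤ r) (h : E i j x y m) (hi : 2 ≤ i) (hj : 2 ≤ j)
    (hx : 2 ≤ x) (hy : 2 ≤ y) (hmX : m ≤ 2 ^ (24 * r)) : x ^ i * y ^ j ≤ 2 ^ (48 * r + 4) := by
  rcases P_bound_C h hi hj hx hy with h1 | h1
  · calc x ^ i * y ^ j ≤ 2 ^ 13 := by omega
      _ ≤ 2 ^ (48 * r + 4) := Nat.pow_le_pow_right (by norm_num) (by omega)
  · exact h1.trans (twelve_le hmX)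

theorem case_C2 {r n i x y m : ℕ} (hr : 2 ≤ r) (hE : E i 2 x y m) (hm : 1 ≤ m) (hn : n = m + i + 2)
    (hi : 2 ≤ i) (hnX : n ≤ 2 ^ (24 * r)) (hx : 2 ≤ x) (hy : 2 ≤ y)
    (hxy : i = 2 → x ≤ y) (hk : i + 2 ≤ 48 * r + 1) : T1 r n ∨ T3 r n := by
  have hmX : m ≤ 2 ^ (24 * r) := by omega
  have hP := P_le (by omega) hE hi le_rfl hx hy hmX
  have hxi1 : 1 ≤ x ^ i := Nat.one_le_iff_ne_zero.2 (by positivity)
  have hy1 : 1 ≤ y ^ 2 := Nat.one_le_iff_ne_zero.2 (by positivity)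
  by_cases hxs : x ≤ 2 ^ (12 * r + 3)
  · right
    refine ⟨i, x, y, m, by omega, by omega, hx, hxs, by omega, ?_, hm, hE, hn⟩
    have h1 : y ^ 2 ≤ (2 ^ (24 * r + 2)) ^ 2 := by
      calc y ^ 2 = 1 * y ^ 2 := by ring
        _ ≤ x ^ i * y ^ 2 := Nat.mul_le_mul_right _ hxi1
        _ ≤ 2 ^ (48 * r + 4) := hP
        _ = (2 ^ (24 * r + 2)) ^ 2 := by rw [← pow_mul]; ring_nf
    have h2 : y ≤ 2 ^ (24 * r + 2) := (Nat.pow_le_pow_iff_left (by norm_num)).1 h1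
    calc y ≤ 2 ^ (24 * r + 2) := h2
      _ < 2 ^ (26 * r) := Nat.pow_lt_pow_right (by norm_num) (by omega)
  · left
    have hxl : 2 ^ (12 * r + 3) < x := not_le.1 hxs
    have h4 : 2 ^ (48 * r + 12) < x ^ 4 := by
      calc 2 ^ (48 * r + 12) = (2 ^ (12 * r + 3)) ^ 4 := by rw [← pow_mul]; ring_nf
        _ < x ^ 4 := Nat.pow_lt_pow_left hxl (by norm_num)
    have h48 : 2 ^ (48 * r + 4) ≤ 2 ^ (48 * r + 12) := Nat.pow_le_pow_right (by norm_num) (by omega)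
    have hi3 : i = 3 := by
      by_contra hne
      have hc : i = 2 ∨ 4 ≤ i := by omega
      rcases hc with rfl | h4i
      · have hle := hxy rfl
        have : x ^ 4 ≤ x ^ 2 * y ^ 2 := by
          calc x ^ 4 = x ^ 2 * x ^ 2 := by ring
            _ ≤ x ^ 2 * y ^ 2 := Nat.mul_le_mul_left _ (Nat.pow_le_pow_left hle 2)
        omega
      · have : x ^ 4 ≤ x ^ i * y ^ 2 := by
          calc x ^ 4 ≤ x ^ i := Nat.pow_le_pow_right (by omega) h4i
            _ = x ^ i * 1 := by ring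
            _ ≤ x ^ i * y ^ 2 := Nat.mul_le_mul_left _ hy1
        omega
    subst hi3
    have hx3 : x ≤ 2 ^ (16 * r + 2) := by
      apply cube_le
      calc x ^ 3 = x ^ 3 * 1 := by ring
        _ ≤ x ^ 3 * y ^ 2 := Nat.mul_le_mul_left _ hy1
        _ ≤ _ := hP
    have hy6 : y ≤ 2 ^ (6 * r) := by
      by_contra hcon
      have hcon : 2 ^ (6 * r) < y := not_le.1 hcon
      have g1 : 2 ^ (36 * r + 9) ≤ x ^ 3 := by
        calc 2 ^ (36 * r + 9) = (2 ^ (12 * r + 3)) ^ 3 := by rw [← pow_mul]; ring_nf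
          _ ≤ x ^ 3 := Nat.pow_le_pow_left hxl.le 3
      have g2 : 2 ^ (12 * r) ≤ y ^ 2 := by
        calc 2 ^ (12 * r) = (2 ^ (6 * r)) ^ 2 := by rw [← pow_mul]; ring_nf
          _ ≤ y ^ 2 := Nat.pow_le_pow_left hcon.le 2
      have g3 : 2 ^ (48 * r + 9) ≤ x ^ 3 * y ^ 2 := by
        calc 2 ^ (48 * r + 9) = 2 ^ (36 * r + 9) * 2 ^ (12 * r) := by rw [← pow_add]; ring_nf
          _ ≤ _ := Nat.mul_le_mul g1 g2
      have g4 : 2 ^ (48 * r + 4) < 2 ^ (48 * r + 9) := Nat.pow_lt_pow_right (by norm_num) (by omega)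
      omega
    refine ⟨3, 2, x, y, m, by omega, by omega, by omega, by omega, ?_, hm, hE, hn⟩
    calc x * y ≤ 2 ^ (16 * r + 2) * 2 ^ (6 * r) := Nat.mul_le_mul hx3 hy6
      _ = 2 ^ (22 * r + 2) := by rw [← pow_add]; ring_nf

theorem case_C3 {r n i j x y m : ℕ} (hr : 2 ≤ r) (hE : E i j x y m) (hm : 1 ≤ m)
    (hn : n = m + i + j) (hi : 3 ≤ i) (hj : 3 ≤ j) (hnX : n ≤ 2 ^ (24 * r)) (hx : 2 ≤ x)
    (hy : 2 ≤ y) (hk : i + j ≤ 48 * r + 1) : T1 r n := by
  have hmX : m ≤ 2 ^ (24 * r) := by omega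
  have hP := P_le (by omega) hE (by omega) (by omega) hx hy hmX
  refine ⟨i, j, x, y, m, by omega, by omega, by omega, by omega, ?_, hm, hE, hn⟩
  have : x * y ≤ 2 ^ (16 * r + 2) := by
    apply cube_le
    calc (x * y) ^ 3 = x ^ 3 * y ^ 3 := by ring
      _ ≤ x ^ i * y ^ j := Nat.mul_le_mul (Nat.pow_le_pow_right (by omega) hi)
          (Nat.pow_le_pow_right (by omega) hj)
      _ ≤ _ := hP
  exact this.trans (Nat.pow_le_pow_right (by norm_num) (by omega))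

theorem cases_E' {r n i j x y m : ℕ} (hr : 2 ≤ r) (hE : E i j x y m) (hm : 1 ≤ m)
    (hn : n = m + i + j) (hn6 : 6 ≤ n) (hnX : n ≤ 2 ^ (24 * r)) (hij : j ≤ i) (hx : 2 ≤ x)
    (hy : 2 ≤ y) (hk : i + j ≤ 48 * r + 1) : T1 r n ∨ T2 r n ∨ T3 r n := by
  have hc : j = 0 ∨ j = 1 ∨ j = 2 ∨ 3 ≤ j := by omega
  rcases hc with rfl | rfl | rfl | hj
  · exact Or.inl (case_A (by omega) hE hm hn hn6 hnX hx hk)
  · exact Or.inr (case_B hr hE hm hn hij hnX hx hy hk)
  · rcases Nat.lt_or_ge 2 i with h2 | h2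
    · rcases case_C2 hr hE hm hn hij hnX hx hy (by omega) hk with h | h
      · exact Or.inl h
      · exact Or.inr (Or.inr h)
    · have hi2 : i = 2 := by omega
      subst hi2
      rcases le_total x y with hxy | hxy
      · rcases case_C2 hr hE hm hn hij hnX hx hy (fun _ => hxy) hk with h | h
        · exact Or.inl h
        · exact Or.inr (Or.inr h)
      · rcases case_C2 hr (E_symm hE) hm hn hij hnX hy hx (fun _ => hxy) hk with h | h
        · exact Or.inl h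
        · exact Or.inr (Or.inr h)
  · exact Or.inl (case_C3 hr hE hm hn (by omega) hj hnX hx hy hk)

theorem cases_E {r n i j x y m : ℕ} (hr : 2 ≤ r) (hE : E i j x y m) (hm : 1 ≤ m)
    (hn : n = m + i + j) (hn6 : 6 ≤ n) (hnX : n ≤ 2 ^ (24 * r)) (hx : 2 ≤ x)
    (hy : 2 ≤ y) (hk : i + j ≤ 48 * r + 1) : T1 r n ∨ T2 r n ∨ T3 r n := by
  rcases le_total j i with h | h
  · exact cases_E' hr hE hm hn hn6 hnX h hx hy hk
  · exact cases_E' hr (E_symm hE) hm (by omega) hn6 hnX h hy hx (by omega)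

end Pool.Agent.Q269.SigmaTwo
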