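import Mathlib
import Pool.Agent.Helper919.DivBound
import Pool.Agent.Q269.SigmaTwo.Block
import Pool.Agent.Q269.SigmaTwo.Cases

set_option autoImplicit false

namespace Pool.Agent.Q269.SigmaTwo

open Finset

theorem divisor_bound : ∃ C : ℕ, 1 ≤ C ∧ ∀ r m : ℕ, m ≠ 0 → m ≤ 2 ^ (400 * r) →
    m.divisors.card ≤ C * 2 ^ r := by
  obtain ⟨C, hC, h⟩ := Pool.Agent.Helper919.card_divisors_pow_le 400
  refine ⟨C, hC, fun r m hm hle => ?_⟩
  have h1 : m.divisors.card ^ 400 ≤ (C * 2 ^ r) ^ 400 := by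
    calc m.divisors.card ^ 400 ≤ C * m := h m hm
      _ ≤ C * 2 ^ (400 * r) := Nat.mul_le_mul_left _ hle
      _ ≤ C ^ 400 * 2 ^ (400 * r) := Nat.mul_le_mul_right _ (Nat.le_self_pow (by norm_num) C)
      _ = (C * 2 ^ r) ^ 400 := by rw [mul_pow, ← pow_mul, mul_comm 400 r]
  exact (Nat.pow_le_pow_iff_left (by norm_num)).1 h1

theorem count_T1 {C : ℕ} (hC : ∀ r m : ℕ, m ≠ 0 → m ≤ 2 ^ (400 * r) →
    m.divisors.card ≤ C * 2 ^ r) {r : ℕ} (hr : 1 ≤ r) (S : Finset ℕ) (hS : ∀ n ∈ S, T1 r n) :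
    S.card ≤ (48 * r + 2) * (48 * r + 2) * (2 ^ (22 * r + 2) * (C * 2 ^ r)) := by
  let D : Finset ((ℕ × ℕ) × (Σ _ : ℕ, ℕ)) :=
    (Finset.range (48 * r + 2) ×ˢ Finset.range (48 * r + 2)) ×ˢ
      ((Finset.Icc 1 (2 ^ (22 * r + 2))).sigma (fun M => M.divisors))
  have h1 : S.card ≤ D.card := by
    apply Finset.card_le_card_of_forall_subsingleton
      (fun n d => ∃ m, 1 ≤ m ∧ E d.1.1 d.1.2 d.2.2 (d.2.1 / d.2.2) m ∧ n = m + d.1.1 + d.1.2)
    · intro n hn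
      obtain ⟨i, j, x, y, m, hi, hj, hx, hy, hxy, hm, hE, hnm⟩ := hS n hn
      refine ⟨((i, j), ⟨x * y, x⟩), ?_, m, hm, ?_, hnm⟩
      · simp only [D, Finset.mem_product, Finset.mem_range, Finset.mem_sigma, Finset.mem_Icc,
          Nat.mem_divisors]
        have : 0 < x * y := by positivity
        exact ⟨⟨hi, hj⟩, ⟨this, hxy⟩, Dvd.intro _ rfl, this.ne'⟩
      · have : x * y / x = y := Nat.mul_div_cancel_left y hx
        simp only [this]
        exact hE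
    · rintro d hd n ⟨_, m, hm, hE, hnm⟩ n' ⟨_, m', hm', hE', hnm'⟩
      have := E_unique hm hm' hE hE'
      omega
  refine h1.trans ?_
  simp only [D, Finset.card_product, Finset.card_range, Finset.card_sigma]
  apply Nat.mul_le_mul_left
  have h2 := Finset.sum_le_card_nsmul (Finset.Icc 1 (2 ^ (22 * r + 2)))
    (fun M => M.divisors.card) (C * 2 ^ r) (fun M hM => by
      rw [Finset.mem_Icc] at hM
      exact hC r M (by omega) (hM.2.trans (Nat.pow_le_pow_right (by norm_num) (by omega))))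
  simpa using h2

theorem count_T2 {C : ℕ} (hC : ∀ r m : ℕ, m ≠ 0 → m ≤ 2 ^ (400 * r) →
    m.divisors.card ≤ C * 2 ^ r) {r : ℕ} (S : Finset ℕ) (hS : ∀ n ∈ S, T2 r n) :
    S.card ≤ (48 * r + 2) * (2 ^ (18 * r) + 1) * (C * 2 ^ r) := by
  let D : Finset (Σ _ : ℕ × ℕ, ℕ) :=
    ((Finset.range (48 * r + 2) ×ˢ Finset.range (2 ^ (18 * r) + 1)).filter
      (fun p => G p.1 p.2 ≠ 0 ∧ G p.1 p.2 ≤ 2 ^ (400 * r))).sigma (fun p => (G p.1 p.2).divisors)
  have h1 : S.card ≤ D.card := by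
    apply Finset.card_le_card_of_forall_subsingleton
      (fun n d => n + d.1.1 * d.1.2 + d.2 = d.1.2 ^ d.1.1 + d.1.1 + 1)
    · intro n hn
      obtain ⟨i, x, g, hi, hx, hG0, hG, hg, hnm⟩ := hS n hn
      refine ⟨⟨(i, x), g⟩, ?_, hnm⟩
      simp only [D, Finset.mem_sigma, Finset.mem_filter, Finset.mem_product, Finset.mem_range,
        Nat.mem_divisors]
      exact ⟨⟨⟨hi, by omega⟩, hG0, hG⟩, hg, hG0⟩
    · rintro d hd n ⟨_, hn⟩ n' ⟨_, hn'⟩
      omega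
  refine h1.trans ?_
  simp only [D, Finset.card_sigma]
  have h2 := Finset.sum_le_card_nsmul ((Finset.range (48 * r + 2) ×ˢ
      Finset.range (2 ^ (18 * r) + 1)).filter
      (fun p => G p.1 p.2 ≠ 0 ∧ G p.1 p.2 ≤ 2 ^ (400 * r)))
    (fun p => (G p.1 p.2).divisors.card) (C * 2 ^ r) (fun p hp => by
      rw [Finset.mem_filter] at hp
      exact hC r _ hp.2.1 hp.2.2)
  refine h2.trans ?_
  rw [smul_eq_mul]
  apply Nat.mul_le_mul_right
  refine (Finset.card_filter_le _ _).trans ?_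
  rw [Finset.card_product, Finset.card_range, Finset.card_range]

open Classical in
theorem count_T3 {r : ℕ} (S : Finset ℕ) (hS : ∀ n ∈ S, T3 r n) :
    S.card ≤ (48 * r + 2) * (2 ^ (12 * r + 3)) * (26 * r * (2 * 2 ^ (6 * r + 2))) := by
  let D : Finset (Σ _ : ℕ × ℕ, ℕ) :=
    ((Finset.Ico 1 (48 * r + 2) ×ˢ Finset.Icc 2 (2 ^ (12 * r + 3)))).sigma
      (fun p => (Finset.Ico 1 (2 ^ (26 * r))).filter (fun t => ∃ m, E p.1 2 p.2 t m))
  have h1 : S.card ≤ D.card := by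
    apply Finset.card_le_card_of_forall_subsingleton
      (fun n d => ∃ m, 1 ≤ m ∧ E d.1.1 2 d.1.2 d.2 m ∧ n = m + d.1.1 + 2)
    · intro n hn
      obtain ⟨i, z, t, m, hi1, hi, hz, hz', ht, ht', hm, hE, hnm⟩ := hS n hn
      refine ⟨⟨(i, z), t⟩, ?_, m, hm, hE, hnm⟩
      simp only [D, Finset.mem_sigma, Finset.mem_filter, Finset.mem_product, Finset.mem_Ico,
        Finset.mem_Icc]
      exact ⟨⟨⟨hi1, hi⟩, hz, hz'⟩, ⟨ht, ht'⟩, m, hE⟩
    · rintro d hd n ⟨_, m, hm, hE, hnm⟩ n' ⟨_, m', hm', hE', hnm'⟩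
      have := E_unique hm hm' hE hE'
      omega
  refine h1.trans ?_
  simp only [D, Finset.card_sigma]
  have h2 := Finset.sum_le_card_nsmul
    (Finset.Ico 1 (48 * r + 2) ×ˢ Finset.Icc 2 (2 ^ (12 * r + 3)))
    (fun p => ((Finset.Ico 1 (2 ^ (26 * r))).filter (fun t => ∃ m, E p.1 2 p.2 t m)).card)
    (26 * r * (2 * 2 ^ (6 * r + 2))) (fun p hp => by
      rw [Finset.mem_product, Finset.mem_Ico, Finset.mem_Icc] at hp
      refine card_conic hp.1.1 hp.2.1 ?_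
      calc p.2 ≤ 2 ^ (12 * r + 3) := hp.2.2
        _ ≤ 2 ^ ((6 * r + 2) * 2) := Nat.pow_le_pow_right (by norm_num) (by omega)
        _ = _ := by rw [pow_mul])
  refine h2.trans ?_
  rw [smul_eq_mul]
  apply Nat.mul_le_mul_right
  rw [Finset.card_product, Nat.card_Ico, Nat.card_Icc]
  refine Nat.mul_le_mul (by omega) ?_
  generalize 2 ^ (12 * r + 3) = B
  omega

/-- The total count. -/
theorem count_total {C : ℕ} (hC1 : 1 ≤ C) (hC : ∀ r m : ℕ, m ≠ 0 → m ≤ 2 ^ (400 * r) →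
    m.divisors.card ≤ C * 2 ^ r) {r : ℕ} (hr : 2 ≤ r) (S : Finset ℕ)
    (hS : ∀ n ∈ S, T1 r n ∨ T2 r n ∨ T3 r n) :
    S.card ≤ 30000 * C * r ^ 2 * 2 ^ (23 * r) := by
  classical
  have hsub : S ⊆ (S.filter (T1 r)) ∪ ((S.filter (T2 r)) ∪ (S.filter (T3 r))) := by
    intro n hn
    simp only [Finset.mem_union, Finset.mem_filter]
    rcases hS n hn with h | h | h
    · exact Or.inl ⟨hn, h⟩
    · exact Or.inr (Or.inl ⟨hn, h⟩)
    · exact Or.inr (Or.inr ⟨hn, h⟩)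
  have h1 := count_T1 hC (by omega : 1 ≤ r) (S.filter (T1 r)) (fun n hn => (Finset.mem_filter.1 hn).2)
  have h2 := count_T2 hC (r := r) (S.filter (T2 r)) (fun n hn => (Finset.mem_filter.1 hn).2)
  have h3 := count_T3 (r := r) (S.filter (T3 r)) (fun n hn => (Finset.mem_filter.1 hn).2)
  have h4 : S.card ≤ (S.filter (T1 r)).card + ((S.filter (T2 r)).card + (S.filter (T3 r)).card) :=
    (Finset.card_le_card hsub).trans ((Finset.card_union_le _ _).trans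
      (Nat.add_le_add_left (Finset.card_union_le _ _) _))
  have hK : 48 * r + 2 ≤ 50 * r := by omega
  -- a common bound
  have b1 : (48 * r + 2) * (48 * r + 2) * (2 ^ (22 * r + 2) * (C * 2 ^ r))
      ≤ 10000 * C * r ^ 2 * 2 ^ (23 * r) := by
    calc (48 * r + 2) * (48 * r + 2) * (2 ^ (22 * r + 2) * (C * 2 ^ r))
        ≤ (50 * r) * (50 * r) * (2 ^ (22 * r + 2) * (C * 2 ^ r)) := by gcongr
      _ = 2500 * C * r ^ 2 * (2 ^ (22 * r + 2) * 2 ^ r) := by ring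
      _ = 2500 * C * r ^ 2 * (2 ^ (23 * r) * 4) := by
          congr 1
          rw [← pow_add]
          have : 22 * r + 2 + r = 23 * r + 2 := by omega
          rw [this, pow_add]
          norm_num
      _ = _ := by ring
  have b2 : (48 * r + 2) * (2 ^ (18 * r) + 1) * (C * 2 ^ r) ≤ 10000 * C * r ^ 2 * 2 ^ (23 * r) := by
    calc (48 * r + 2) * (2 ^ (18 * r) + 1) * (C * 2 ^ r)
        ≤ (50 * r) * (2 ^ (22 * r)) * (C * 2 ^ r) := by
          have : 2 ^ (18 * r) + 1 ≤ 2 ^ (22 * r) :=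
            Nat.succ_le_of_lt (Nat.pow_lt_pow_right (by norm_num) (by omega))
          gcongr
      _ = 50 * C * r * (2 ^ (22 * r) * 2 ^ r) := by ring
      _ = 50 * C * r * 2 ^ (23 * r) := by rw [← pow_add]; congr 2; omega
      _ ≤ 10000 * C * r ^ 2 * 2 ^ (23 * r) := by
          have : r ≤ r ^ 2 := by nlinarith
          gcongr
          omega
  have b3 : (48 * r + 2) * (2 ^ (12 * r + 3)) * (26 * r * (2 * 2 ^ (6 * r + 2)))
      ≤ 10000 * C * r ^ 2 * 2 ^ (23 * r) := by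
    calc (48 * r + 2) * (2 ^ (12 * r + 3)) * (26 * r * (2 * 2 ^ (6 * r + 2)))
        ≤ (50 * r) * (2 ^ (12 * r + 3)) * (26 * r * (2 * 2 ^ (6 * r + 2))) := by gcongr
      _ = 2600 * r ^ 2 * (2 ^ (12 * r + 3) * 2 ^ (6 * r + 2)) := by ring
      _ = 2600 * r ^ 2 * 2 ^ (18 * r + 5) := by rw [← pow_add]; congr 2; omega
      _ ≤ 10000 * C * r ^ 2 * 2 ^ (23 * r) := by
          have : 2 ^ (18 * r + 5) ≤ 2 ^ (23 * r) := Nat.pow_le_pow_right (by norm_num) (by omega)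
          gcongr
          omega
  calc S.card ≤ 10000 * C * r ^ 2 * 2 ^ (23 * r) + (10000 * C * r ^ 2 * 2 ^ (23 * r)
        + 10000 * C * r ^ 2 * 2 ^ (23 * r)) := by omega
    _ = _ := by ring

end Pool.Agent.Q269.SigmaTwo
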